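import Mathlib

open Finset Equiv

namespace Pool.Agent.N704.DB

/-- merging two cycles with a transposition -/
theorem merge {Y : Type*} [Finite Y] [DecidableEq Y] (σ : Perm Y) (y y' : Y)
    (h : ¬ σ.SameCycle y y') (z : Y) (hz : σ.SameCycle y z ∨ σ.SameCycle y' z) :
    (σ * swap y y').SameCycle y z := by
  set τ := σ * swap y y' with hτ
  have h1 : τ y = σ y' := by simp [hτ]
  have h2 : τ y' = σ y := by simp [hτ]
  have h3 : ∀ w, w ≠ y → w ≠ y' → τ w = σ w := by
    intro w hw hw'
    simp [hτ, swap_apply_of_ne_of_ne hw hw']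
  have key1 : ∀ j : ℕ, τ.SameCycle y ((σ ^ (j + 1)) y') := by
    intro j
    induction j with
    | zero =>
      rw [zero_add, pow_one, ← h1]
      exact Equiv.Perm.sameCycle_apply_right.2 (Equiv.Perm.SameCycle.refl _ _)
    | succ j ih =>
      rw [pow_succ', Equiv.Perm.mul_apply]
      set w := (σ ^ (j + 1)) y' with hw
      by_cases hwy : w = y'
      · rw [hwy, ← h1]
        exact Equiv.Perm.sameCycle_apply_right.2 (Equiv.Perm.SameCycle.refl _ _)
      · have hwy2 : w ≠ y := by
          intro hh
          apply h
          rw [← hh, hw]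
          exact Equiv.Perm.sameCycle_pow_left.2 (Equiv.Perm.SameCycle.refl _ _)
        rw [← h3 w hwy2 hwy]
        exact Equiv.Perm.sameCycle_apply_right.2 ih
  have key2 : ∀ z, σ.SameCycle y' z → τ.SameCycle y z := by
    intro z hz
    obtain ⟨i, hi, _, rfl⟩ := hz.exists_pow_eq''
    obtain ⟨j, rfl⟩ : ∃ j, i = j + 1 := ⟨i - 1, by omega⟩
    exact key1 j
  have hyy : τ.SameCycle y y' := key2 _ (Equiv.Perm.SameCycle.refl _ _)
  have key3 : ∀ j : ℕ, τ.SameCycle y ((σ ^ (j + 1)) y) := by
    intro j
    induction j with
    | zero =>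
      rw [zero_add, pow_one, ← h2]
      exact Equiv.Perm.sameCycle_apply_right.2 hyy
    | succ j ih =>
      rw [pow_succ', Equiv.Perm.mul_apply]
      set w := (σ ^ (j + 1)) y with hw
      by_cases hwy : w = y
      · rw [hwy, ← h2]
        exact Equiv.Perm.sameCycle_apply_right.2 hyy
      · have hwy2 : w ≠ y' := by
          intro hh
          apply h
          rw [← hh, hw]
          exact Equiv.Perm.sameCycle_pow_right.2 (Equiv.Perm.SameCycle.refl _ _)
        rw [← h3 w hwy hwy2]
        exact Equiv.Perm.sameCycle_apply_right.2 ih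
  rcases hz with hz | hz
  · obtain ⟨i, hi, _, rfl⟩ := hz.exists_pow_eq''
    obtain ⟨j, rfl⟩ : ∃ j, i = j + 1 := ⟨i - 1, by omega⟩
    exact key3 j
  · exact key2 z hz

/-- the set of left windows closed under shifting in letters is everything -/
theorem shift_closed {α : Type*} {L : ℕ} (W : Set (Fin L → α)) (w0 : Fin L → α) (hw0 : w0 ∈ W)
    (hW : ∀ w ∈ W, ∀ x : α, Fin.tail (Fin.snoc (α := fun _ => α) w x) ∈ W) (u : Fin L → α) :
    u ∈ W := by
  rcases Nat.eq_zero_or_pos L with h0 | hpos
  · subst h0
    rwa [Subsingleton.elim u w0]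
  -- the sequence
  let s : ℕ → α := fun i => if h : i < L then w0 ⟨i, h⟩ else
    if h2 : i - L < L then u ⟨i - L, h2⟩ else w0 ⟨0, hpos⟩
  have key : ∀ j : ℕ, (fun i : Fin L => s (j + i)) ∈ W := by
    intro j
    induction j with
    | zero =>
      convert hw0 using 1
      funext i
      simp [s]
    | succ j ih =>
      have := hW _ ih (s (j + L))
      convert this using 1
      funext i
      simp only [Fin.tail]
      rcases Nat.lt_or_ge (i.val + 1) L with h | h
      · have : (i.succ : Fin (L + 1)) = Fin.castSucc ⟨i.val + 1, h⟩ := by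
          ext; simp
        rw [this, Fin.snoc_castSucc]
        congr 1
        simp only
        ring
      · have h' : i.val + 1 = L := by omega
        have : (i.succ : Fin (L + 1)) = Fin.last L := by
          ext; simp [h']
        rw [this, Fin.snoc_last]
        congr 1
        omega
  have := key L
  convert this using 1
  funext i
  simp [s]

/-- the joining lemma -/
theorem join {α Y : Type*} [Finite Y] {L : ℕ} (P : Prop)
    (v : Y → (Fin (L + 1) → α)) (π : Perm Y)
    (hπ : ∀ y, Fin.tail (v y) = Fin.init (v (π y)))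
    (hP : P → Function.Injective fun y => (v y, v (π y)))
    (hcov : ∀ x : Fin (L + 1) → α, (∃ y, v y = x) ∨ ∃ a, x = fun _ => a)
    (y0 : Y) :
    ∃ σ : Perm Y, (∀ y, Fin.tail (v y) = Fin.init (v (σ y))) ∧
      (P → Function.Injective fun y => (v y, v (σ y))) ∧ ∀ y y', σ.SameCycle y y' := by
  classical
  have := Fintype.ofFinite Y
  let good : Perm Y → Prop := fun σ => (∀ y, Fin.tail (v y) = Fin.init (v (σ y))) ∧
      (P → Function.Injective fun y => (v y, v (σ y)))
  let O : Perm Y × Y → Finset Y := fun p => univ.filter (fun z => p.1.SameCycle p.2 z)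
  have hne : (univ.filter (fun p : Perm Y × Y => good p.1)).Nonempty :=
    ⟨(π, y0), by simp [good, hπ]; exact hP⟩
  obtain ⟨⟨σ, y1⟩, hmem, hmax⟩ := Finset.exists_max_image _ (fun p => (O p).card) hne
  simp only [mem_filter, mem_univ, true_and] at hmem hmax
  obtain ⟨g1, g2⟩ := hmem
  -- no swap between inside and outside is good
  have noswap : ∀ y y', σ.SameCycle y1 y → ¬ σ.SameCycle y1 y' → ¬ good (σ * swap y y') := by
    intro y y' hy hy' hg
    have h1 := hmax (σ * swap y y', y) hg
    have hnot : ¬ σ.SameCycle y y' := fun h => hy' (hy.trans h)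
    have hsub : insert y' (O (σ, y1)) ⊆ O (σ * swap y y', y) := by
      intro z hz
      rw [mem_insert] at hz
      simp only [O, mem_filter, mem_univ, true_and] at hz ⊢
      rcases hz with rfl | hz
      · exact merge σ y z hnot z (Or.inr (Equiv.Perm.SameCycle.refl _ _))
      · exact merge σ y y' hnot z (Or.inl (hy.symm.trans hz))
    have h2 := card_le_card hsub
    rw [card_insert_of_notMem (by simpa [O] using hy')] at h2
    omega
  have htail : ∀ y y', Fin.tail (v y) = Fin.tail (v y') →
      ∀ z, Fin.tail (v z) = Fin.init (v ((σ * swap y y') z)) := by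
    intro y y' hyy z
    rw [Equiv.Perm.mul_apply, ← g1]
    by_cases h1 : z = y
    · rw [h1, swap_apply_left, hyy]
    · by_cases h2 : z = y'
      · rw [h2, swap_apply_right, hyy]
      · rw [swap_apply_of_ne_of_ne h1 h2]
  -- closed under equal windows
  have ca : ∀ y y', σ.SameCycle y1 y → v y = v y' → σ.SameCycle y1 y' := by
    intro y y' hy hv
    by_contra hcon
    apply noswap y y' hy hcon
    refine ⟨htail y y' (by rw [hv]), fun hp => ?_⟩
    have hinj := g2 hp
    have hvs : ∀ z, v (swap y y' z) = v z := by
      intro z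
      by_cases h1 : z = y
      · rw [h1, swap_apply_left, hv]
      · by_cases h2 : z = y'
        · rw [h2, swap_apply_right, hv]
        · rw [swap_apply_of_ne_of_ne h1 h2]
    have : (fun z => (v z, v ((σ * swap y y') z))) = (fun z => (v z, v (σ z))) ∘ (swap y y') := by
      funext z
      simp [hvs]
    rw [this]
    exact hinj.comp (swap y y').injective
  have cb : ∀ y y', σ.SameCycle y1 y → Fin.tail (v y) = Fin.tail (v y') → σ.SameCycle y1 y' := by
    intro y y' hy hv
    by_contra hcon
    apply noswap y y' hy hcon
    refine ⟨htail y y' hv, fun hp => ?_⟩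
    have hinj := g2 hp
    have hvne : v y ≠ v y' := fun h => hcon (ca y y' hy h)
    -- conflicts
    have conf1 : ∀ z, v z = v y → v (σ z) = v (σ y') → False := by
      intro z h1 h2
      have hz : σ.SameCycle y1 z := ca y z hy h1.symm
      have hz2 : σ.SameCycle y1 (σ z) := Equiv.Perm.sameCycle_apply_right.2 hz
      have hz3 := ca _ _ hz2 h2
      exact hcon (Equiv.Perm.sameCycle_apply_right.1 hz3)
    have conf2 : ∀ z, v z = v y' → v (σ z) = v (σ y) → False := by
      intro z h1 h2
      have hz2 : σ.SameCycle y1 (σ y) := Equiv.Perm.sameCycle_apply_right.2 hy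
      have hz3 := ca _ _ hz2 h2.symm
      have hz4 := Equiv.Perm.sameCycle_apply_right.1 hz3
      exact hcon (ca _ _ hz4 h1)
    intro z z' hzz
    simp only [Prod.mk.injEq, Equiv.Perm.mul_apply] at hzz
    obtain ⟨e1, e2⟩ := hzz
    by_cases h1 : z = y
    · subst h1
      by_cases h1' : z' = z
      · exact h1'.symm
      · by_cases h2' : z' = y'
        · subst h2'
          exact absurd e1 hvne
        · rw [swap_apply_left, swap_apply_of_ne_of_ne h1' h2'] at e2
          exact (conf1 z' e1.symm e2.symm).elim
    · by_cases h2 : z = y'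
      · subst h2
        by_cases h1' : z' = y
        · subst h1'
          exact absurd e1.symm hvne
        · by_cases h2' : z' = z
          · exact h2'.symm
          · rw [swap_apply_right, swap_apply_of_ne_of_ne h1' h2'] at e2
            exact (conf2 z' e1.symm e2.symm).elim
      · rw [swap_apply_of_ne_of_ne h1 h2] at e2
        by_cases h1' : z' = y
        · subst h1'
          rw [swap_apply_left] at e2
          exact (conf1 z e1 e2).elim
        · by_cases h2' : z' = y'
          · subst h2'
            rw [swap_apply_right] at e2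
            exact (conf2 z e1 e2).elim
          · rw [swap_apply_of_ne_of_ne h1' h2'] at e2
            exact hinj (by simp [e1, e2])
  -- connectivity
  let W : Set (Fin L → α) := {w | ∀ y, Fin.tail (v y) = w → σ.SameCycle y1 y}
  have hW0 : Fin.tail (v y1) ∈ W := by
    intro y hy
    exact cb y1 y (Equiv.Perm.SameCycle.refl _ _) hy.symm
  have hall : ∀ w, w ∈ W := by
    intro w
    refine shift_closed W _ hW0 ?_ w
    intro w hw x
    rcases hcov (Fin.snoc (α := fun _ => α) w x) with ⟨y2, hy2⟩ | ⟨a, ha⟩
    · intro y hy
      have h3 : Fin.tail (v (σ⁻¹ y2)) = w := by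
        rw [g1]
        simp [hy2]
      have h4 := hw _ h3
      have h5 : σ.SameCycle y1 y2 := by
        have := Equiv.Perm.sameCycle_apply_right.2 h4
        simpa using this
      exact cb y2 y h5 (by rw [hy, hy2])
    · have h1 : w = fun _ => a := by
        have := congrArg Fin.init ha
        rw [Fin.init_snoc] at this
        rw [this]; rfl
      have h2 : Fin.tail (Fin.snoc (α := fun _ => α) w x) = w := by
        rw [ha, h1]; rfl
      rw [h2]; exact hw
  refine ⟨σ, g1, g2, fun y y' => ?_⟩
  exact ((hall _ y rfl).symm).trans (hall _ y' rfl)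

end Pool.Agent.N704.DB
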