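import Mathlib
import Pool.Agent.N704.DB.A

open Finset Equiv

namespace Pool.Agent.N704.DB

/-- from a one-cycle permutation to a periodic sequence -/
theorem extract {α Y : Type*} [Fintype Y] {L N : ℕ}
    (v : Y → (Fin (L + 1) → α)) (σ : Perm Y) (hN : Fintype.card Y = N)
    (h1 : ∀ y, Fin.tail (v y) = Fin.init (v (σ y)))
    (h3 : ∀ y y', σ.SameCycle y y') (y0 : Y) :
    ∃ c : ℕ → α, (∀ i, c (i + N) = c i) ∧ ∃ e : Fin N ≃ Y,
      (∀ i : Fin N, ∀ j : Fin (L + 1), c (i + j) = v (e i) j) ∧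
      (∀ i : Fin N, ∀ j : Fin (L + 1), c (i + 1 + j) = v (σ (e i)) j) := by
  classical
  subst hN
  have hcyc : σ.IsCycleOn ((univ : Finset Y) : Set Y) := by
    refine ⟨?_, fun x _ y _ => h3 x y⟩
    simp [σ.bijective]
  have hwin : ∀ j : ℕ, ∀ hj : j < L + 1, ∀ i : ℕ,
      v ((σ ^ (i + j)) y0) 0 = v ((σ ^ i) y0) ⟨j, hj⟩ := by
    intro j
    induction j with
    | zero => intro _ i; rfl
    | succ j ih =>
      intro hj i
      have e1 : i + (j + 1) = (i + 1) + j := by ring
      rw [e1, ih (by omega) (i + 1), pow_succ', Equiv.Perm.mul_apply]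
      have := congrFun (h1 ((σ ^ i) y0)) ⟨j, by omega⟩
      simp only [Fin.tail, Fin.init] at this
      have e2 : (Fin.succ (⟨j, by omega⟩ : Fin L)) = (⟨j + 1, hj⟩ : Fin (L + 1)) := rfl
      have e3 : (Fin.castSucc (⟨j, by omega⟩ : Fin L)) = (⟨j, by omega⟩ : Fin (L + 1)) := rfl
      rw [e2, e3] at this
      exact this.symm
  have hcard : (univ : Finset Y).card = Fintype.card Y := rfl
  refine ⟨fun i => v ((σ ^ i) y0) 0, ?_, ?_⟩
  · intro i
    have : (σ ^ (i + Fintype.card Y)) y0 = (σ ^ i) y0 := by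
      rw [pow_add, Equiv.Perm.mul_apply, ← hcard, hcyc.pow_card_apply (mem_univ _)]
    simp only [this]
  · let f : Fin (Fintype.card Y) → Y := fun i => (σ ^ (i : ℕ)) y0
    have hf : Function.Bijective f := by
      rw [Fintype.bijective_iff_injective_and_card]
      refine ⟨?_, by simp⟩
      intro i j hij
      have := (hcyc.pow_apply_eq_pow_apply (mem_univ y0)).1 hij
      rw [hcard] at this
      exact Fin.ext (Nat.ModEq.eq_of_lt_of_lt this i.2 j.2)
    refine ⟨Equiv.ofBijective f hf, ?_, ?_⟩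
    · intro i j
      exact hwin j.val j.2 i.val
    · intro i j
      have := hwin j.val j.2 (i.val + 1)
      refine this.trans ?_
      rw [pow_succ', Equiv.Perm.mul_apply]
      rfl

/-- the layers lemma -/
theorem layers {α : Type*} [Fintype α] [DecidableEq α] {I : Type*} [Fintype I] [DecidableEq I]
    {L N : ℕ} (P : Prop) (Q : I → Perm (Fin (L + 1) → α))
    (hQ : ∀ i x, Fin.init (Q i x) = Fin.tail x)
    (hP : P → ∀ i j x, Q i x = Q j x → i = j)
    (T : I → Finset (Fin (L + 1) → α)) (hT : ∀ i x, x ∈ T i ↔ Q i x ∈ T i)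
    (hcov : ∀ x : Fin (L + 1) → α, (∃ i, x ∈ T i) ∨ ∃ a, x = fun _ => a)
    (hN : ∑ i, (T i).card = N) (hpos : 0 < N) :
    ∃ c : ℕ → α, (∀ i, c (i + N) = c i) ∧
      (∀ {M : Type} [AddCommMonoid M] (f : (Fin (L + 1) → α) → M),
        ∑ i ∈ range N, f (fun j => c (i + j)) = ∑ i, ∑ x ∈ T i, f x) ∧
      (P → ∀ i < N, ∀ j < N, (∀ k < L + 2, c (i + k) = c (j + k)) → i = j) := by
  classical
  let Y := {p : I × (Fin (L + 1) → α) // p.2 ∈ T p.1}
  let v : Y → (Fin (L + 1) → α) := fun y => y.1.2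
  let g : Perm (I × (Fin (L + 1) → α)) :=
    Equiv.ofBijective (fun p => (p.1, Q p.1 p.2)) (by
      rw [← Finite.injective_iff_bijective]
      rintro ⟨i, x⟩ ⟨j, y⟩ h
      simp only [Prod.mk.injEq] at h
      obtain ⟨rfl, h⟩ := h
      rw [(Q i).injective h])
  let π : Perm Y := g.subtypePerm (fun p => by simpa [g] using (hT p.1 p.2).symm)
  have hπv : ∀ y : Y, v (π y) = Q y.1.1 y.1.2 := fun y => rfl
  have hcardY : Fintype.card Y = N := by
    rw [← hN]
    have e : Y ≃ (Σ i : I, {x // x ∈ T i}) :=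
      { toFun := fun y => ⟨y.1.1, ⟨y.1.2, y.2⟩⟩
        invFun := fun s => ⟨(s.1, s.2.1), s.2.2⟩
        left_inv := fun y => rfl
        right_inv := fun s => rfl }
    rw [Fintype.card_congr e, Fintype.card_sigma]
    simp
  have hne : 0 < Fintype.card Y := by rw [hcardY]; exact hpos
  obtain ⟨y0⟩ := Fintype.card_pos_iff.1 hne
  obtain ⟨σ, s1, s2, s3⟩ := join P v π (fun y => by rw [hπv, hQ])
    (fun hp => by
      rintro ⟨⟨i, x⟩, hx⟩ ⟨⟨j, y⟩, hy⟩ h
      simp only [Prod.mk.injEq, hπv] at h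
      obtain ⟨h1, h2⟩ := h
      simp only [v] at h1
      subst h1
      have := hP hp i j x h2
      subst this
      rfl)
    (fun x => by
      rcases hcov x with ⟨i, hi⟩ | h
      · exact Or.inl ⟨⟨(i, x), hi⟩, rfl⟩
      · exact Or.inr h) y0
  obtain ⟨c, hc, e, he1, he2⟩ := extract v σ hcardY s1 s3 y0
  refine ⟨c, hc, ?_, ?_⟩
  · intro M _ f
    have hsum : ∑ i ∈ range N, f (fun j => c (i + j)) = ∑ i : Fin N, f (v (e i)) := by
      rw [← Fin.sum_univ_eq_sum_range (fun i => f (fun j : Fin (L + 1) => c (i + j)))]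
      refine Finset.sum_congr rfl fun i _ => ?_
      congr 1
      funext j
      exact he1 i j
    rw [hsum, Equiv.sum_comp e (fun y => f (v y))]
    have h1 : ∑ y : Y, f (v y) = ∑ s : (Σ i : I, {x // x ∈ T i}), f s.2.1 := by
      apply Fintype.sum_equiv
        { toFun := fun y : Y => (⟨y.1.1, ⟨y.1.2, y.2⟩⟩ : (Σ i : I, {x // x ∈ T i}))
          invFun := fun s => ⟨(s.1, s.2.1), s.2.2⟩
          left_inv := fun y => rfl
          right_inv := fun s => rfl }
      intro y
      rfl
    rw [h1, Fintype.sum_sigma]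
    refine Finset.sum_congr rfl fun i _ => ?_
    exact Finset.sum_coe_sort (T i) f
  · intro hp i hi j hj hij
    have hinj := s2 hp
    have : e ⟨i, hi⟩ = e ⟨j, hj⟩ := by
      apply hinj
      simp only [Prod.mk.injEq]
      constructor
      · funext k
        rw [← he1 ⟨i, hi⟩ k, ← he1 ⟨j, hj⟩ k]
        exact hij k.val (by omega)
      · funext k
        rw [← he2 ⟨i, hi⟩ k, ← he2 ⟨j, hj⟩ k]
        have := hij (k.val + 1) (by omega)
        simp only
        rw [show i + 1 + (k : ℕ) = i + (k + 1) by ring, show j + 1 + (k : ℕ) = j + (k + 1) by ring]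
        exact this
    have := e.injective this
    simpa using this

/-- building a de Bruijn permutation from a family of letter permutations -/
theorem mkS {α : Type*} [Finite α] {L : ℕ} (τ : (Fin L → α) → Perm α) :
    ∃ S : Perm (Fin (L + 1) → α), ∀ x, S x = Fin.snoc (α := fun _ => α) (Fin.tail x) (τ (Fin.tail x) (x 0)) := by
  have hinj : Function.Injective (fun x : Fin (L + 1) → α =>
      (Fin.snoc (α := fun _ => α) (Fin.tail x) (τ (Fin.tail x) (x 0)) : Fin (L + 1) → α)) := by
    intro x y h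
    simp only at h
    have h1 : Fin.tail x = Fin.tail y := by
      have := congrArg Fin.init h
      simpa using this
    have h2 : τ (Fin.tail x) (x 0) = τ (Fin.tail y) (y 0) := by
      have := congrFun h (Fin.last L)
      simpa using this
    rw [h1] at h2
    have h3 := (τ (Fin.tail y)).injective h2
    rw [← Fin.cons_self_tail x, ← Fin.cons_self_tail y, h1, h3]
  exact ⟨Equiv.ofBijective _ (Finite.injective_iff_bijective.1 hinj), fun x => rfl⟩

end Pool.Agent.N704.DB
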