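import Mathlib
import Pool.Agent.N704.DB.B

open Finset Equiv

namespace Pool.Agent.N704.DB

/-- a partial injection extends to a permutation -/
theorem ext_perm {α : Type*} [Finite α] (R : α → α → Prop)
    (hfun : ∀ a b b', R a b → R a b' → b = b') (hinj : ∀ a a' b, R a b → R a' b → a = a') :
    ∃ τ : Perm α, ∀ a b, R a b → τ a = b := by
  classical
  have := Fintype.ofFinite α
  let s : Finset α := univ.filter (fun a => ∃ b, R a b)
  let f : α → α := fun a => if h : ∃ b, R a b then h.choose else a
  have hf : ∀ a b, R a b → f a = b := by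
    intro a b hab
    have h : ∃ b, R a b := ⟨b, hab⟩
    simp only [f, dif_pos h]
    exact hfun a _ _ h.choose_spec hab
  obtain ⟨g, hg⟩ := Finset.exists_equiv_extend_of_card_eq (t := (univ : Finset α)) (s := s) (f := f)
    (by simp) (by simp) (by
      intro a ha a' ha' haa
      simp only [s, coe_filter, mem_univ, true_and, Set.mem_ofPred_eq] at ha ha'
      obtain ⟨b, hb⟩ := ha
      obtain ⟨b', hb'⟩ := ha'
      rw [hf a b hb, hf a' b' hb'] at haa
      subst haa
      exact hinj a a' b hb hb')
  refine ⟨g.trans (Equiv.subtypeUnivEquiv (by simp)), fun a b hab => ?_⟩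
  have := hg a (by simp only [s, mem_filter, mem_univ, true_and]; exact ⟨b, hab⟩)
  rw [hf a b hab] at this
  simpa using this

theorem per_mod {α : Type*} {c : ℕ → α} {t : ℕ} (hc : ∀ i, c (i + t) = c i) (i : ℕ) :
    c (i % t) = c i := by
  have : Function.Periodic c t := hc
  exact this.map_mod_nat i

theorem per_congr {α : Type*} {c : ℕ → α} {t : ℕ} (hc : ∀ i, c (i + t) = c i) {i j : ℕ}
    (h : i ≡ j [MOD t]) : c i = c j := by
  rw [← per_mod hc i, ← per_mod hc j, h]

/-- windows determine the position modulo the period -/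
theorem win_mod {α : Type*} {c : ℕ → α} {t l : ℕ} (ht : 0 < t) (hc : ∀ i, c (i + t) = c i)
    (hd : ∀ i < t, ∀ j < t, (∀ k < l, c (i + k) = c (j + k)) → i = j) {i j : ℕ}
    (h : ∀ k < l, c (i + k) = c (j + k)) : i ≡ j [MOD t] := by
  refine hd _ (Nat.mod_lt _ ht) _ (Nat.mod_lt _ ht) fun k hk => ?_
  rw [per_congr hc (Nat.ModEq.add_right k (Nat.mod_modEq i t)),
    per_congr hc (Nat.ModEq.add_right k (Nat.mod_modEq j t))]
  exact h k hk

variable {m : ℕ}

/-- adding a constant to the last letter -/
def addLast (L : ℕ) (u : ZMod m) : Perm (Fin (L + 1) → ZMod m) :=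
  Equiv.addRight (Pi.single (Fin.last L) u)

theorem init_addLast {L : ℕ} (u : ZMod m) (x : Fin (L + 1) → ZMod m) :
    Fin.init (addLast L u x) = Fin.init x := by
  funext i
  simp [addLast, Fin.init]

theorem addLast_last {L : ℕ} (u : ZMod m) (x : Fin (L + 1) → ZMod m) :
    addLast L u x (Fin.last L) = x (Fin.last L) + u := by
  simp [addLast]

theorem addLast_zero {L : ℕ} (x : Fin (L + 1) → ZMod m) : addLast L 0 x = x := by
  simp [addLast]

/-- adding `q` full layers to a cyclic sequence with distinct windows -/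
theorem add_layers [NeZero m] {L t q : ℕ} (ht : 0 < t) (hq : 0 < q) (c0 : ℕ → ZMod m)
    (hc0 : ∀ i, c0 (i + t) = c0 i)
    (hd0 : ∀ i < t, ∀ j < t, (∀ k < L + 1, c0 (i + k) = c0 (j + k)) → i = j) :
    ∃ c : ℕ → ZMod m, (∀ i, c (i + (t + q * m ^ (L + 1))) = c i) ∧
      (∀ {M : Type} [AddCommMonoid M] (f : (Fin (L + 1) → ZMod m) → M),
        ∑ i ∈ range (t + q * m ^ (L + 1)), f (fun j => c (i + j)) =
          ∑ i ∈ range t, f (fun j => c0 (i + j)) + q • ∑ x, f x) ∧
      (q < m → ∀ i < t + q * m ^ (L + 1), ∀ j < t + q * m ^ (L + 1),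
        (∀ k < L + 2, c (i + k) = c (j + k)) → i = j) := by
  classical
  let win : ℕ → (Fin (L + 1) → ZMod m) := fun i j => c0 (i + j)
  have hwm : ∀ {i j : ℕ}, win i = win j → i ≡ j [MOD t] := by
    intro i j hij
    refine win_mod ht hc0 hd0 fun k hk => ?_
    exact congrFun hij ⟨k, hk⟩
  have hwc : ∀ {i j : ℕ}, i ≡ j [MOD t] → win i = win j := by
    intro i j hij
    funext k
    exact per_congr hc0 (Nat.ModEq.add_right _ hij)
  -- letter permutations
  have hτ : ∀ w : Fin L → ZMod m, ∃ τ : Perm (ZMod m),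
      ∀ i, Fin.tail (win i) = w → τ (c0 i) = c0 (i + L + 1) := by
    intro w
    obtain ⟨τ, hτ⟩ := ext_perm (fun a b => ∃ i, Fin.tail (win i) = w ∧ c0 i = a ∧
      c0 (i + L + 1) = b) (by
        rintro a b b' ⟨i, h1, h2, h3⟩ ⟨i', h1', h2', h3'⟩
        have : win i = win i' := by
          rw [← Fin.cons_self_tail (win i), ← Fin.cons_self_tail (win i'), h1, h1']
          congr 1
          simp [win, h2, h2']
        rw [← h3, ← h3']
        exact per_congr hc0 ((hwm this).add_right (L + 1))) (by
        rintro a a' b ⟨i, h1, h2, h3⟩ ⟨i', h1', h2', h3'⟩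
        have e1 : win (i + 1) = win (i' + 1) := by
          funext k
          refine Fin.lastCases ?_ (fun k => ?_) k
          · simp only [win, Fin.val_last]
            rw [show i + 1 + L = i + L + 1 by ring, show i' + 1 + L = i' + L + 1 by ring, h3, h3']
          · have := congrFun (h1.trans h1'.symm) k
            simp only [Fin.tail, win, Fin.val_succ] at this
            simp only [win, Fin.val_castSucc]
            rw [show i + 1 + (k : ℕ) = i + (k + 1) by ring,
              show i' + 1 + (k : ℕ) = i' + (k + 1) by ring]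
            exact this
        have e2 := hwm e1
        have e3 : i ≡ i' [MOD t] := Nat.ModEq.add_right_cancel' 1 e2
        rw [← h2, ← h2']
        exact per_congr hc0 e3)
    exact ⟨τ, fun i hi => hτ _ _ ⟨i, hi, rfl, rfl⟩⟩
  choose τ hτ using hτ
  obtain ⟨S, hS⟩ := mkS τ
  have hSwin : ∀ i, S (win i) = win (i + 1) := by
    intro i
    rw [hS]
    have h1 : win i 0 = c0 i := by simp [win]
    rw [h1, hτ _ i rfl]
    funext k
    refine Fin.lastCases ?_ (fun k => ?_) k
    · rw [Fin.snoc_last]
      simp only [win, Fin.val_last]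
      rw [show i + 1 + L = i + L + 1 by ring]
    · rw [Fin.snoc_castSucc]
      simp only [Fin.tail, win, Fin.val_succ, Fin.val_castSucc]
      rw [show i + 1 + (k : ℕ) = i + (k + 1) by ring]
  let C : Finset (Fin (L + 1) → ZMod m) := (range t).image win
  have hmemC : ∀ x, x ∈ C ↔ ∃ i, win i = x := by
    intro x
    simp only [C, mem_image, mem_range]
    constructor
    · rintro ⟨i, _, h⟩; exact ⟨i, h⟩
    · rintro ⟨i, h⟩
      exact ⟨i % t, Nat.mod_lt _ ht, by rw [← h]; exact hwc (Nat.mod_modEq i t)⟩
  have hSC : ∀ x, x ∈ C ↔ S x ∈ C := by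
    intro x
    rw [hmemC, hmemC]
    constructor
    · rintro ⟨i, rfl⟩
      exact ⟨i + 1, (hSwin i).symm⟩
    · rintro ⟨i, hi⟩
      refine ⟨i + t - 1, ?_⟩
      apply S.injective
      rw [hSwin, ← hi]
      apply hwc
      have : i + t - 1 + 1 = i + t := by omega
      rw [this]
      exact Nat.add_modEq_right
  have hinjC : Set.InjOn win (range t : Set ℕ) := by
    intro i hi j hj hij
    simp only [coe_range, Set.mem_Iio] at hi hj
    exact Nat.ModEq.eq_of_lt_of_lt (hwm hij) hi hj
  let Q : Fin (q + 1) → Perm (Fin (L + 1) → ZMod m) := fun j => S.trans (addLast L (j.val : ZMod m))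
  let T : Fin (q + 1) → Finset (Fin (L + 1) → ZMod m) := fun j => if j = 0 then C else univ
  have hT0 : T 0 = C := by simp [T]
  have hTs : ∀ j : Fin q, T j.succ = univ := by intro j; simp [T]
  have hcardC : C.card = t := by
    rw [Finset.card_image_of_injOn hinjC, card_range]
  obtain ⟨c, h1, h2, h3⟩ := layers (N := t + q * m ^ (L + 1)) (q < m) Q
    (by
      intro i x
      simp only [Q, Equiv.trans_apply]
      rw [init_addLast, hS, Fin.init_snoc])
    (by
      intro hqm i j x hij
      simp only [Q, Equiv.trans_apply] at hij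
      have := congrFun hij (Fin.last L)
      rw [addLast_last, addLast_last, add_right_inj] at this
      have h4 := (ZMod.natCast_eq_natCast_iff _ _ _).1 this
      exact Fin.ext (Nat.ModEq.eq_of_lt_of_lt h4 (by omega) (by omega)))
    T
    (by
      intro i x
      by_cases hi : i = 0
      · subst hi
        rw [hT0, hSC]
        simp [Q, addLast_zero]
      · simp [T, hi])
    (by
      intro x
      refine Or.inl ⟨(⟨0, hq⟩ : Fin q).succ, ?_⟩
      rw [hTs]; simp)
    (by
      rw [Fin.sum_univ_succ, hT0, hcardC]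
      simp [hTs, ZMod.card])
    (by omega)
  refine ⟨c, h1, ?_, h3⟩
  intro M _ f
  rw [h2 f, Fin.sum_univ_succ, hT0]
  simp only [hTs, sum_const, card_univ, Fintype.card_fin]
  congr 1
  simp only [C]
  rw [Finset.sum_image hinjC]

/-- `q` full layers: each window exactly `q` times -/
theorem full_layers [NeZero m] {L q : ℕ} (hq : 0 < q) :
    ∃ c : ℕ → ZMod m, (∀ i, c (i + q * m ^ (L + 1)) = c i) ∧
      (∀ {M : Type} [AddCommMonoid M] (f : (Fin (L + 1) → ZMod m) → M),
        ∑ i ∈ range (q * m ^ (L + 1)), f (fun j => c (i + j)) = q • ∑ x, f x) ∧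
      (q < m → ∀ i < q * m ^ (L + 1), ∀ j < q * m ^ (L + 1),
        (∀ k < L + 2, c (i + k) = c (j + k)) → i = j) := by
  classical
  obtain ⟨S, hS⟩ := mkS (L := L) (fun _ => (1 : Perm (ZMod m)))
  let Q : Fin q → Perm (Fin (L + 1) → ZMod m) := fun j => S.trans (addLast L (j.val : ZMod m))
  obtain ⟨c, h1, h2, h3⟩ := layers (N := q * m ^ (L + 1)) (q < m) Q
    (by
      intro i x
      simp only [Q, Equiv.trans_apply]
      rw [init_addLast, hS, Fin.init_snoc])
    (by
      intro hqm i j x hij
      simp only [Q, Equiv.trans_apply] at hij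
      have := congrFun hij (Fin.last L)
      rw [addLast_last, addLast_last, add_right_inj] at this
      have h4 := (ZMod.natCast_eq_natCast_iff _ _ _).1 this
      exact Fin.ext (Nat.ModEq.eq_of_lt_of_lt h4 (by omega) (by omega)))
    (fun _ => univ)
    (by intro i x; simp)
    (by intro x; exact Or.inl ⟨⟨0, hq⟩, by simp⟩)
    (by simp [ZMod.card])
    (by
      have : 0 < m ^ (L + 1) := Nat.pow_pos (Nat.pos_of_ne_zero (NeZero.ne m))
      positivity)
  refine ⟨c, h1, ?_, h3⟩
  intro M _ f
  rw [h2 f]
  simp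

/-- `q` layers, with one word replaced -/
theorem twisted_layers [NeZero m] (hm : 3 ≤ m) {L q : ℕ} (hq : 0 < q) (hqm : q < m) (δ : ZMod m)
    (hδ : δ ≠ 0) :
    ∃ c : ℕ → ZMod m, (∀ i, c (i + q * m ^ (L + 1)) = c i) ∧
      (∀ i < q * m ^ (L + 1), ∀ j < q * m ^ (L + 1),
        (∀ k < L + 2, c (i + k) = c (j + k)) → i = j) ∧
      ∑ i ∈ range (q * m ^ (L + 1)), c i =
        δ + q • ∑ x : Fin (L + 1) → ZMod m, x 0 := by
  classical
  obtain ⟨p, rfl⟩ : ∃ p, q = p + 1 := ⟨q - 1, by omega⟩
  -- choose the sign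
  obtain ⟨u, hu0, hu1, hu2⟩ : ∃ u : ZMod m, δ ≠ -u ∧ u ≠ 0 ∧ (u = 1 ∨ u = -1) := by
    have h1 : (1 : ZMod m) ≠ 0 := by
      have : Fact (1 < m) := ⟨by omega⟩
      exact one_ne_zero
    have h2 : (1 : ZMod m) ≠ -1 := by
      intro h
      have h3 : ((2 : ℕ) : ZMod m) = 0 := by
        have : (1 : ZMod m) + 1 = 0 := by
          nth_rewrite 1 [h]; simp
        push_cast
        rw [← this]; norm_num
      rw [ZMod.natCast_eq_zero_iff] at h3
      have := Nat.le_of_dvd (by norm_num) h3
      omega
    by_cases h : δ = -1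
    · exact ⟨-1, by rw [h, neg_neg]; exact h2.symm, by simpa using h1, Or.inr rfl⟩
    · exact ⟨1, h, h1, Or.inl rfl⟩
  obtain ⟨S, hS⟩ := mkS (L := L) (fun _ => swap (0 : ZMod m) (-u))
  let Q : Fin (p + 2) → Perm (Fin (L + 1) → ZMod m) :=
    fun j => S.trans (addLast L ((j.val : ZMod m) * u))
  let T : Fin (p + 2) → Finset (Fin (L + 1) → ZMod m) :=
    fun j => if j = 0 then {fun _ => δ} else if j = 1 then univ.erase (fun _ => 0) else univ
  have hQ0 : Q 0 (fun _ => δ) = fun _ => δ := by
    simp only [Q, Equiv.trans_apply, Fin.val_zero, Nat.cast_zero, zero_mul, addLast_zero, hS]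
    rw [swap_apply_of_ne_of_ne hδ hu0]
    funext k
    refine Fin.lastCases ?_ (fun k => ?_) k
    · rw [Fin.snoc_last]
    · rw [Fin.snoc_castSucc]; rfl
  have hQ1 : Q 1 (fun _ => 0) = fun _ => 0 := by
    simp only [Q, Equiv.trans_apply, Fin.val_one, Nat.cast_one, one_mul]
    funext k
    refine Fin.lastCases ?_ (fun k => ?_) k
    · rw [addLast_last, hS, Fin.snoc_last, swap_apply_left]
      ring
    · have := congrFun (init_addLast u (S fun _ => 0)) k
      simp only [Fin.init] at this
      rw [this, hS, Fin.snoc_castSucc]; rfl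
  have hT0 : T 0 = {fun _ => δ} := by simp [T]
  have hT1 : T (Fin.succ 0) = univ.erase (fun _ => 0) := by simp [T]
  have hTs : ∀ j : Fin p, T j.succ.succ = univ := by
    intro j
    have h1 : j.succ.succ ≠ (0 : Fin (p + 2)) := Fin.succ_ne_zero _
    have h2 : j.succ.succ ≠ (1 : Fin (p + 2)) := by
      intro h
      have := congrArg Fin.val h
      simp at this
    simp [T, h1, h2]
  obtain ⟨c, h1, h2, h3⟩ := layers (N := (p + 1) * m ^ (L + 1)) True Q
    (by
      intro i x
      simp only [Q, Equiv.trans_apply]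
      rw [init_addLast, hS, Fin.init_snoc])
    (by
      intro _ i j x hij
      simp only [Q, Equiv.trans_apply] at hij
      have := congrFun hij (Fin.last L)
      rw [addLast_last, addLast_last, add_right_inj] at this
      have h4 : ((i.val : ℕ) : ZMod m) = ((j.val : ℕ) : ZMod m) := by
        rcases hu2 with rfl | rfl
        · simpa using this
        · simpa using this
      have h4 := (ZMod.natCast_eq_natCast_iff _ _ _).1 h4
      exact Fin.ext (Nat.ModEq.eq_of_lt_of_lt h4 (by omega) (by omega)))
    T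
    (by
      intro i x
      by_cases hi : i = 0
      · subst hi
        rw [hT0, mem_singleton, mem_singleton]
        constructor
        · rintro rfl; exact hQ0
        · intro h
          exact (Q 0).injective (h.trans hQ0.symm)
      · by_cases hi1 : i = 1
        · subst hi1
          have : T 1 = univ.erase (fun _ => 0) := hT1
          rw [this]
          simp only [mem_erase, mem_univ, and_true]
          rw [not_iff_not]
          constructor
          · rintro rfl; exact hQ1
          · intro h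
            exact (Q 1).injective (h.trans hQ1.symm)
        · simp [T, hi, hi1])
    (by
      intro x
      by_cases hx : x = fun _ => 0
      · exact Or.inr ⟨0, hx⟩
      · refine Or.inl ⟨Fin.succ 0, ?_⟩
        rw [hT1]
        simp [hx])
    (by
      have hpos : 0 < m ^ (L + 1) := Nat.pow_pos (by omega)
      rw [Fin.sum_univ_succ, Fin.sum_univ_succ, hT0, hT1]
      simp only [hTs, card_singleton, sum_const, card_univ, Fintype.card_fin,
        card_erase_of_mem (mem_univ _), Fintype.card_pi, ZMod.card, prod_const, smul_eq_mul]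
      have : 1 + (m ^ (L + 1) - 1 + p * m ^ (L + 1)) = p * m ^ (L + 1) + m ^ (L + 1) := by omega
      rw [this]; ring)
    (by
      have : 0 < m ^ (L + 1) := Nat.pow_pos (by omega)
      positivity)
  refine ⟨c, h1, h3 trivial, ?_⟩
  have := h2 (fun x => x 0)
  simp only [Fin.val_zero, add_zero] at this
  rw [this, Fin.sum_univ_succ, Fin.sum_univ_succ, hT0, hT1]
  simp only [hTs, sum_singleton, sum_const, card_univ, Fintype.card_fin]
  have h5 : ∑ x ∈ univ.erase (fun _ : Fin (L + 1) => (0 : ZMod m)), x 0 =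
      ∑ x : Fin (L + 1) → ZMod m, x 0 := by
    rw [← Finset.add_sum_erase univ (fun x : Fin (L + 1) → ZMod m => x 0) (mem_univ (fun _ => 0))]
    simp
  rw [h5, succ_nsmul']

end Pool.Agent.N704.DB
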