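import Mathlib
import Pool.Agent.N704.DB.C

open Finset Equiv

namespace Pool.Agent.N704.DB

variable {m : ℕ}

/-- a cyclic sequence of length `r` over `ZMod m` with distinct `L`-windows and with sum `s` -/
def Good (m L r : ℕ) (s : ZMod m) : Prop :=
  ∃ c : ℕ → ZMod m, (∀ i, c (i + r) = c i) ∧
    (∀ i < r, ∀ j < r, (∀ k < L, c (i + k) = c (j + k)) → i = j) ∧ ∑ i ∈ range r, c i = s

theorem subset_sum [NeZero m] {r : ℕ} (hr : 0 < r) (hrm : r < m) (s : ZMod m) :
    ∃ T : Finset (ZMod m), T.card = r ∧ ∑ x ∈ T, x = s := by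
  classical
  have hcard : (univ : Finset (ZMod m)).card = m := by simp [ZMod.card]
  obtain ⟨T0, _, hT0⟩ := Finset.exists_subset_card_eq (s := (univ : Finset (ZMod m))) (n := r)
    (by omega)
  have key : ∀ k : ℕ, ∃ T : Finset (ZMod m), T.card = r ∧ ∑ x ∈ T, x = ∑ x ∈ T0, x + k := by
    intro k
    induction k with
    | zero => exact ⟨T0, hT0, by simp⟩
    | succ k ih =>
      obtain ⟨T, h1, h2⟩ := ih
      have hex : ∃ x ∈ T, x + 1 ∉ T := by
        by_contra hcon
        push Not at hcon
        obtain ⟨x0, hx0⟩ := Finset.card_pos.1 (by omega : 0 < T.card)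
        have hall : ∀ j : ℕ, x0 + j ∈ T := by
          intro j
          induction j with
          | zero => simpa using hx0
          | succ j ihj =>
            have := hcon _ ihj
            push_cast
            rw [← add_assoc]; exact this
        have : T = univ := by
          ext y
          simp only [mem_univ, iff_true]
          have := hall (y - x0).val
          rw [ZMod.natCast_val, ZMod.cast_id', id_eq] at this
          simpa using this
        rw [this, hcard] at h1
        omega
      obtain ⟨x, hx, hx1⟩ := hex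
      refine ⟨insert (x + 1) (T.erase x), ?_, ?_⟩
      · rw [card_insert_of_notMem (fun h => hx1 (mem_of_mem_erase h)), card_erase_of_mem hx, h1]
        omega
      · rw [sum_insert (fun h => hx1 (mem_of_mem_erase h))]
        have h3 := Finset.add_sum_erase T (fun y => y) hx
        push_cast
        rw [← add_assoc, ← h2, ← h3]
        ring
  obtain ⟨T, h1, h2⟩ := key (s - ∑ x ∈ T0, x).val
  refine ⟨T, h1, ?_⟩
  rw [h2, ZMod.natCast_val, ZMod.cast_id', id_eq]
  ring

theorem good_one [NeZero m] {r : ℕ} (hr : 0 < r) (hrm : r < m) (s : ZMod m) : Good m 1 r s := by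
  obtain ⟨T, h1, h2⟩ := subset_sum hr hrm s
  let e : Fin r ≃ T := (T.equivFinOfCardEq h1).symm
  refine ⟨fun i => (e ⟨i % r, Nat.mod_lt _ hr⟩ : ZMod m), ?_, ?_, ?_⟩
  · intro i
    simp only [Nat.add_mod_right]
  · intro i hi j hj h
    have h3 := h 0 (by norm_num)
    simp only [add_zero] at h3
    have h4 := e.injective (Subtype.ext h3)
    have h5 := congrArg Fin.val h4
    simp only [Nat.mod_eq_of_lt hi, Nat.mod_eq_of_lt hj] at h5
    exact h5
  · rw [← Fin.sum_univ_eq_sum_range (fun i => (e ⟨i % r, Nat.mod_lt _ hr⟩ : ZMod m))]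
    have h6 : ∀ i : Fin r, (e ⟨(i : ℕ) % r, Nat.mod_lt _ hr⟩ : ZMod m) = (e i : ZMod m) := by
      intro i
      congr 2
      exact Fin.ext (Nat.mod_eq_of_lt i.2)
    simp only [h6]
    rw [Equiv.sum_comp e (fun x : T => (x : ZMod m)), Finset.sum_coe_sort T (fun x => x), h2]

theorem good_step [NeZero m] (hm : 3 ≤ m) {L : ℕ}
    (ih : ∀ t, 0 < t → t < m ^ (L + 1) → ∀ s, Good m (L + 1) t s)
    {r : ℕ} (hr : 0 < r) (hrm : r < m ^ (L + 2)) (s : ZMod m) : Good m (L + 2) r s := by
  have hpos : 0 < m ^ (L + 1) := Nat.pow_pos (by omega)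
  rcases Nat.lt_or_ge r (m ^ (L + 1)) with h | h
  · obtain ⟨c, h1, h2, h3⟩ := ih r hr h s
    exact ⟨c, h1, fun i hi j hj hij => h2 i hi j hj fun k hk => hij k (by omega), h3⟩
  · have hdm := Nat.div_add_mod r (m ^ (L + 1))
    set q := r / m ^ (L + 1) with hq
    set t := r % m ^ (L + 1) with ht
    have hq0 : 0 < q := Nat.div_pos h hpos
    have hqm : q < m := by
      rw [hq]
      apply Nat.div_lt_of_lt_mul
      rw [← pow_succ]; exact hrm
    have htm : t < m ^ (L + 1) := Nat.mod_lt _ hpos
    have hrq : r = t + q * m ^ (L + 1) := by rw [← hdm]; ring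
    rcases Nat.eq_zero_or_pos t with ht0 | ht0
    · rw [ht0, zero_add] at hrq
      by_cases hδ : s - q • ∑ x : Fin (L + 1) → ZMod m, x 0 = 0
      · obtain ⟨c, h1, h2, h3⟩ := full_layers (m := m) (L := L) hq0
        refine ⟨c, ?_, ?_, ?_⟩
        · rw [hrq]; exact h1
        · rw [hrq]; exact h3 hqm
        · have := h2 (fun x => x 0)
          simp only [Fin.val_zero, add_zero] at this
          rw [hrq, this]
          exact (sub_eq_zero.1 hδ).symm
      · obtain ⟨c, h1, h2, h3⟩ := twisted_layers hm (L := L) hq0 hqm _ hδ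
        refine ⟨c, ?_, ?_, ?_⟩
        · rw [hrq]; exact h1
        · rw [hrq]; exact h2
        · rw [hrq, h3]
          ring
    · obtain ⟨c0, g1, g2, g3⟩ := ih t ht0 htm (s - q • ∑ x : Fin (L + 1) → ZMod m, x 0)
      obtain ⟨c, h1, h2, h3⟩ := add_layers ht0 hq0 c0 g1 g2
      refine ⟨c, ?_, ?_, ?_⟩
      · rw [hrq]; exact h1
      · rw [hrq]; exact h3 hqm
      · have := h2 (fun x => x 0)
        simp only [Fin.val_zero, add_zero] at this
        rw [hrq, this, g3]
        ring

theorem good_all [NeZero m] (hm : 3 ≤ m) : ∀ L : ℕ,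
    ∀ t, 0 < t → t < m ^ (L + 1) → ∀ s, Good m (L + 1) t s
  | 0 => fun t ht htm s => good_one ht (by simpa using htm) s
  | L + 1 => fun _ ht htm s => good_step hm (good_all hm L) ht htm s

/-- number of occurrences -/
def cnt {α : Type*} [DecidableEq α] (c : ℕ → α) (n l : ℕ) (u : Fin l → α) : ℕ :=
  ((range n).filter (fun i => ∀ j : Fin l, c (i + j) = u j)).card

/-- sequences of length `n'` with sum one and few repetitions -/
theorem exists_unit [NeZero m] (hm : 3 ≤ m) {L n k : ℕ}
    (hmod : 0 < n % m ^ (L + 1)) (hk : n ≤ k * m ^ (L + 1)) :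
    ∃ c : ℕ → ZMod m, (∀ i, c (i + n) = c i) ∧ ∑ i ∈ range n, c i = 1 ∧
      ∀ u : Fin (L + 1) → ZMod m, cnt c n (L + 1) u ≤ k := by
  classical
  have hpos : 0 < m ^ (L + 1) := Nat.pow_pos (by omega)
  have hdm := Nat.div_add_mod n (m ^ (L + 1))
  set p := n / m ^ (L + 1) with hp
  set r := n % m ^ (L + 1) with hr
  have hrm : r < m ^ (L + 1) := Nat.mod_lt _ hpos
  have hn : n = r + p * m ^ (L + 1) := by rw [← hdm]; ring
  have hpk : p < k := by
    by_contra hcon
    push Not at hcon
    have := Nat.mul_le_mul_right (m ^ (L + 1)) hcon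
    omega
  obtain ⟨c0, g1, g2, g3⟩ := good_all hm L r hmod hrm (1 - p • ∑ x : Fin (L + 1) → ZMod m, x 0)
  have hc0 : ∀ u : Fin (L + 1) → ZMod m, cnt c0 r (L + 1) u ≤ 1 := by
    intro u
    rw [cnt, Finset.card_le_one]
    intro i hi j hj
    rw [mem_filter, mem_range] at hi hj
    refine g2 i hi.1 j hj.1 fun k hk => ?_
    rw [show c0 (i + k) = u ⟨k, hk⟩ from hi.2 ⟨k, hk⟩,
      show c0 (j + k) = u ⟨k, hk⟩ from hj.2 ⟨k, hk⟩]
  rcases Nat.eq_zero_or_pos p with hp0 | hp0
  · rw [hp0, zero_mul, add_zero] at hn
    rw [hp0, zero_smul, sub_zero] at g3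
    rw [hn]
    exact ⟨c0, g1, g3, fun u => (hc0 u).trans (by omega)⟩
  · obtain ⟨c, h1, h2, _⟩ := add_layers hmod hp0 c0 g1 g2
    rw [← hn] at h1 h2
    refine ⟨c, h1, ?_, ?_⟩
    · have := h2 (fun x => x 0)
      simp only [Fin.val_zero, add_zero] at this
      rw [this, g3]
      ring
    · intro u
      have := h2 (fun x => if x = u then 1 else 0)
      have e1 : ∀ (d : ℕ → ZMod m) (N : ℕ), ∑ i ∈ range N,
          (if (fun j : Fin (L + 1) => d (i + j)) = u then 1 else 0) = cnt d N (L + 1) u := by
        intro d N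
        rw [← Finset.card_filter, cnt]
        congr 1
        ext i
        simp [funext_iff]
      rw [e1, e1] at this
      rw [this]
      simp only [sum_ite_eq', mem_univ, if_true, smul_eq_mul, mul_one]
      have := hc0 u
      omega

/-- the lift -/
theorem lift_seq [NeZero m] {n l k : ℕ} (hn : 0 < n) (c : ℕ → ZMod m)
    (hc : ∀ i, c (i + n) = c i) (hs : ∑ i ∈ range n, c i = 1)
    (hk : ∀ u : Fin l → ZMod m, cnt c n l u ≤ k) :
    ∃ t : ℕ → ZMod m, (∀ i, t (i + m * n) = t i) ∧
      (∀ x, ((range (m * n)).filter (fun i => t i = x)).card = n) ∧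
      ∀ u : Fin (l + 1) → ZMod m, cnt t (m * n) (l + 1) u ≤ k := by
  classical
  have hm0 : 0 < m := Nat.pos_of_ne_zero (NeZero.ne m)
  let t : ℕ → ZMod m := fun i => ∑ j ∈ range i, c j
  have ht1 : ∀ i, t (i + 1) = t i + c i := fun i => sum_range_succ _ _
  have htn : ∀ i, t (i + n) = t i + 1 := by
    intro i
    induction i with
    | zero => simp [t, hs]
    | succ i ih =>
      rw [show i + 1 + n = (i + n) + 1 by ring, ht1, ih, ht1, hc]
      ring
  have htn2 : ∀ i h : ℕ, t (i + n * h) = t i + h := by
    intro i h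
    induction h with
    | zero => simp
    | succ h ih =>
      rw [show i + n * (h + 1) = (i + n * h) + n by ring, htn, ih]
      push_cast; ring
  have htmod : ∀ i, t i = t (i % n) + ((i / n : ℕ) : ZMod m) := by
    intro i
    conv_lhs => rw [← Nat.mod_add_div i n]
    rw [htn2]
  refine ⟨t, ?_, ?_, ?_⟩
  · intro i
    rw [show i + m * n = i + n * m by ring, htn2]
    simp
  · intro x
    have : ((range (m * n)).filter (fun i => t i = x)).card = (range n).card := by
      apply Finset.card_nbij' (fun i => i % n) (fun i => i + n * (x - t i).val)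
      · intro i _
        simp only [coe_range, Set.mem_Iio]
        exact Nat.mod_lt _ hn
      · intro i hi
        simp only [coe_range, Set.mem_Iio] at hi
        simp only [coe_filter, mem_range, Set.mem_ofPred_eq]
        constructor
        · have h1 := ZMod.val_lt (x - t i)
          have h2 : n * ((x - t i).val + 1) ≤ n * m := Nat.mul_le_mul_left _ h1
          rw [mul_comm m n]
          rw [mul_add, mul_one] at h2
          omega
        · rw [htn2, ZMod.natCast_val, ZMod.cast_id', id_eq]
          ring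
      · intro i hi
        simp only [coe_filter, mem_range, Set.mem_ofPred_eq] at hi
        obtain ⟨h1, h2⟩ := hi
        simp only
        have h3 : i / n < m := Nat.div_lt_of_lt_mul (by rw [mul_comm]; exact h1)
        have h4 : x - t (i % n) = ((i / n : ℕ) : ZMod m) := by
          rw [← h2, htmod i]; ring
        rw [h4, ZMod.val_natCast, Nat.mod_eq_of_lt h3]
        exact Nat.mod_add_div i n
      · intro i hi
        simp only [coe_range, Set.mem_Iio] at hi
        simp only
        rw [Nat.add_mul_mod_self_left, Nat.mod_eq_of_lt hi]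
    rw [this, card_range]
  · intro u
    refine le_trans ?_ (hk (fun j => u j.succ - u j.castSucc))
    unfold cnt
    apply Finset.card_le_card_of_injOn (fun i => i % n)
    · intro i hi
      simp only [coe_filter, mem_range, Set.mem_ofPred_eq] at hi ⊢
      refine ⟨Nat.mod_lt _ hn, fun j => ?_⟩
      have e1 : c (i % n + j) = c (i + j) := per_congr hc (Nat.ModEq.add_right _ (Nat.mod_modEq i n))
      rw [e1]
      have e2 := hi.2 j.succ
      have e3 := hi.2 j.castSucc
      simp only [Fin.val_succ, Fin.val_castSucc] at e2 e3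
      rw [← add_assoc, ht1, e3] at e2
      rw [← e2]; ring
    · intro i hi i' hi' hii
      simp only [coe_filter, mem_range, Set.mem_ofPred_eq] at hi hi'
      simp only at hii
      have e1 := hi.2 0
      have e2 := hi'.2 0
      simp only [Fin.val_zero, add_zero] at e1 e2
      have e3 : t i = t i' := e1.trans e2.symm
      rw [htmod i, htmod i', hii, add_right_inj] at e3
      have e4 := (ZMod.natCast_eq_natCast_iff _ _ _).1 e3
      have h3 : i / n < m := Nat.div_lt_of_lt_mul (by rw [mul_comm]; exact hi.1)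
      have h3' : i' / n < m := Nat.div_lt_of_lt_mul (by rw [mul_comm]; exact hi'.1)
      have e5 := Nat.ModEq.eq_of_lt_of_lt e4 h3 h3'
      rw [← Nat.mod_add_div i n, ← Nat.mod_add_div i' n, hii, e5]

/-- existence, in periodic form -/
theorem exists_periodic [NeZero m] (hm : 3 ≤ m) {n l k : ℕ} (hn : 0 < n) (hl : 0 < l)
    (hk : m * n ≤ k * m ^ l) :
    ∃ a : ℕ → ZMod m, (∀ i, a (i + m * n) = a i) ∧
      (∀ x, ((range (m * n)).filter (fun i => a i = x)).card = n) ∧
      ∀ u : Fin l → ZMod m, cnt a (m * n) l u ≤ k := by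
  classical
  obtain ⟨l, rfl⟩ : ∃ l', l = l' + 1 := ⟨l - 1, by omega⟩
  have hk' : n ≤ k * m ^ l := by
    have : m * n ≤ m * (k * m ^ l) := by
      calc m * n ≤ k * m ^ (l + 1) := hk
        _ = m * (k * m ^ l) := by ring
    exact Nat.le_of_mul_le_mul_left this (by omega)
  rcases Nat.eq_zero_or_pos l with h0 | hpos
  · subst h0
    refine lift_seq (l := 0) hn (fun i => if n ∣ i then 1 else 0) ?_ ?_ ?_
    · intro i
      simp
    · obtain ⟨n', rfl⟩ : ∃ n', n = n' + 1 := ⟨n - 1, by omega⟩
      rw [Finset.sum_range_succ']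
      have : ∀ i ∈ range n', (if n' + 1 ∣ i + 1 then (1 : ZMod m) else 0) = 0 := by
        intro i hi
        rw [mem_range] at hi
        rw [if_neg]
        intro h
        have := Nat.le_of_dvd (by omega) h
        omega
      rw [Finset.sum_eq_zero this]
      simp
    · intro u
      unfold cnt
      calc _ ≤ (range n).card := Finset.card_filter_le _ _
        _ ≤ k := by simpa using hk'
  · obtain ⟨L, rfl⟩ : ∃ L, l = L + 1 := ⟨l - 1, by omega⟩
    have hmp : 0 < m ^ (L + 1) := Nat.pow_pos (by omega)
    rcases Nat.eq_zero_or_pos (n % m ^ (L + 1)) with hr | hr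
    · -- exact multiples
      have hdm := Nat.div_add_mod n (m ^ (L + 1))
      rw [hr, add_zero] at hdm
      set p := n / m ^ (L + 1) with hp
      have hp0 : 0 < p := by
        rcases Nat.eq_zero_or_pos p with h | h
        · rw [h, mul_zero] at hdm; omega
        · exact h
      have hpk : p ≤ k := by
        rw [← hdm, mul_comm] at hk'
        exact Nat.le_of_mul_le_mul_right hk' hmp
      have hN : p * m ^ (L + 1 + 1) = m * n := by
        rw [← hdm]; ring
      obtain ⟨a, h1, h2, _⟩ := full_layers (m := m) (L := L + 1) hp0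
      rw [hN] at h1 h2
      have hfib : ∀ x : ZMod m, (univ.filter (fun w : Fin (L + 1 + 1) → ZMod m => w 0 = x)).card =
          m ^ (L + 1) := by
        intro x
        have e : {w : Fin (L + 1 + 1) → ZMod m // w 0 = x} ≃ (Fin (L + 1) → ZMod m) :=
          { toFun := fun w => Fin.tail w.1
            invFun := fun w => ⟨Fin.cons x w, by simp⟩
            left_inv := by
              rintro ⟨w, rfl⟩
              simp
            right_inv := by
              intro w
              simp }
        rw [← Fintype.card_subtype, Fintype.card_congr e]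
        simp [ZMod.card]
      refine ⟨a, h1, ?_, ?_⟩
      · intro x
        have := h2 (fun w => if w 0 = x then 1 else 0)
        simp only [Fin.val_zero, add_zero] at this
        rw [← Finset.card_filter, ← Finset.card_filter, hfib] at this
        rw [this, smul_eq_mul, mul_comm]
        exact hdm
      · intro u
        have := h2 (fun x => if x = u then 1 else 0)
        have e1 : ∑ i ∈ range (m * n),
            (if (fun j : Fin (L + 1 + 1) => a (i + j)) = u then 1 else 0) =
              cnt a (m * n) (L + 1 + 1) u := by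
          rw [← Finset.card_filter, cnt]
          congr 1
          ext i
          simp [funext_iff]
        rw [e1] at this
        rw [this]
        simp only [sum_ite_eq', mem_univ, if_true, smul_eq_mul, mul_one]
        exact hpk
    · obtain ⟨c, g1, g2, g3⟩ := exists_unit hm hr hk'
      exact lift_seq hn c g1 g2 g3

end Pool.Agent.N704.DB
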